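import Mathlib
import Pool.Agent.H42.Asc1

open Cardinal Pool.Agent.H42.AscDefs

/-- Under `𝔠 < 2 ^ ℵ₁` there is a countable (so cosmic) Tychonoff Ascoli space that is not a
`k_ℝ`-space. -/
theorem Pool.Agent.Results.MP_1cbded_gt.Cons.result (h : (𝔠 : Cardinal.{0}) < 2 ^ ℵ₁) :
    ∃ (X : Type) (_ : TopologicalSpace X),
      T35Space X ∧ Countable X ∧ Cosmic X ∧ Ascoli X ∧ ¬ KR X :=
  Pool.Agent.H42.Asc.main h
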